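import Pool.Agent.Lib.MP_defcf3_al.BR.StageI

/-!
Module GALDESC: Galois descent for finite-dimensional vector spaces with a discrete semilinear action
(a linear form vanishing on all traces of the vectors c e_i vanishes by independence of characters).
-/

namespace BR7.H92

universe u v

open scoped Topology

theorem galdesc : GalDescStatement.{u, v} := by
  intro F Ω _ _ _ _ V _ _ _ ρ hadd hsmul hmul hone hopen
  classical
  have hzero : ∀ g, ρ g 0 = 0 := by
    intro g
    have h := hadd g 0 0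
    rw [add_zero] at h
    exact (add_eq_left (a := ρ g 0)).1 h.symm
  have hsum : ∀ (g : Ω ≃ₐ[F] Ω) {ι : Type u} (s : Finset ι) (f : ι → V),
      ρ g (∑ i ∈ s, f i) = ∑ i ∈ s, ρ g (f i) := by
    intro g ι s f
    induction s using Finset.induction_on with
    | empty => simp [hzero]
    | insert a s ha ih => rw [Finset.sum_insert ha, Finset.sum_insert ha, hadd, ih]
  set W : Set V := {v | ∀ g, ρ g v = v} with hW
  have hspan : Submodule.span Ω W = ⊤ := by
    by_contra hne
    obtain ⟨φ, hφ0, hφ⟩ := (Submodule.span Ω W).exists_le_ker_of_lt_top (lt_top_iff_ne_top.2 hne)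
    let e := Module.finBasis Ω V
    have hN : (⋂ i, {g : Ω ≃ₐ[F] Ω | ρ g (e i) = e i}) ∈ 𝓝 (1 : Ω ≃ₐ[F] Ω) :=
      Filter.iInter_mem.2 fun i => (hopen (e i)).mem_nhds (hone (e i))
    obtain ⟨E, hfin, hnorm, hE⟩ := (krullTopology_mem_nhds_one_iff_of_normal F Ω _).1 hN
    have hagree : ∀ (g₁ g₂ : Ω ≃ₐ[F] Ω), (∀ x : E, g₁ x = g₂ x) → ∀ (c : E) (i),
        ρ g₁ ((c : Ω) • e i) = ρ g₂ ((c : Ω) • e i) := by
      intro g₁ g₂ h c i
      have hm : g₁⁻¹ * g₂ ∈ E.fixingSubgroup := by
        rw [IntermediateField.mem_fixingSubgroup_iff]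
        intro x hx
        have := h ⟨x, hx⟩
        change g₁⁻¹ (g₂ x) = x
        rw [← this]
        exact g₁.symm_apply_apply x
      have hfix : ρ (g₁⁻¹ * g₂) (e i) = e i := by
        have := hE hm
        exact Set.mem_iInter.1 this i
      have hc : (g₁⁻¹ * g₂) (c : Ω) = c :=
        (IntermediateField.mem_fixingSubgroup_iff E _).1 hm c c.2
      have h1 : ρ (g₁⁻¹ * g₂) ((c : Ω) • e i) = (c : Ω) • e i := by
        rw [hsmul, hfix, hc]
      calc ρ g₁ ((c : Ω) • e i) = ρ g₁ (ρ (g₁⁻¹ * g₂) ((c : Ω) • e i)) := by rw [h1]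
        _ = ρ (g₁ * (g₁⁻¹ * g₂)) ((c : Ω) • e i) := (hmul _ _ _).symm
        _ = ρ g₂ ((c : Ω) • e i) := by rw [mul_inv_cancel_left]
    let lift : (E ≃ₐ[F] E) → (Ω ≃ₐ[F] Ω) := fun σ => σ.liftNormal Ω
    have hlift : ∀ (σ : E ≃ₐ[F] E) (x : E), lift σ (x : Ω) = ((σ x : E) : Ω) := by
      intro σ x
      exact σ.liftNormal_commutes Ω x
    apply hφ0
    refine e.ext fun i => ?_
    rw [LinearMap.zero_apply]
    have hT : ∀ c : E, (∑ σ : E ≃ₐ[F] E, ρ (lift σ) ((c : Ω) • e i)) ∈ W := by
      intro c g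
      rw [hsum]
      refine Fintype.sum_equiv (Equiv.mulLeft (AlgEquiv.restrictNormal g E)) _ _ fun σ => ?_
      rw [← hmul]
      refine hagree _ _ (fun x => ?_) c i
      change g (lift σ (x : Ω)) = lift (AlgEquiv.restrictNormal g E * σ) (x : Ω)
      rw [hlift, hlift]
      exact (AlgEquiv.restrictNormal_commutes g E (σ x)).symm
    have hz : ∀ c : E, ∑ σ : E ≃ₐ[F] E, φ (ρ (lift σ) (e i)) * ((σ c : E) : Ω) = 0 := by
      intro c
      have h1 : φ (∑ σ : E ≃ₐ[F] E, ρ (lift σ) ((c : Ω) • e i)) = 0 :=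
        hφ (Submodule.subset_span (hT c))
      rw [map_sum] at h1
      rw [← h1]
      refine Finset.sum_congr rfl fun σ _ => ?_
      rw [hsmul, map_smul, hlift, smul_eq_mul, mul_comm]
    let ψ : (E ≃ₐ[F] E) → (E →* Ω) := fun σ =>
      ((algebraMap E Ω : E →+* Ω) : E →* Ω).comp (((σ : E ≃ₐ[F] E) : E →+* E) : E →* E)
    have hψ : Function.Injective ψ := by
      intro σ τ h
      ext x
      have := DFunLike.congr_fun h x
      exact this
    have hli := (linearIndependent_monoidHom E Ω).comp ψ hψ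
    have hc := Fintype.linearIndependent_iff.1 hli (fun σ => φ (ρ (lift σ) (e i))) (by
      funext c
      have := hz c
      simp only [Finset.sum_apply, Pi.smul_apply, Function.comp_apply, Pi.zero_apply, smul_eq_mul]
      exact this) 1
    have h1 : ρ (lift 1) (e i) = e i := by
      have := hagree (lift 1) 1 (fun x => by rw [hlift]; rfl) 1 i
      simpa [hone] using this
    rw [← h1]
    exact hc
  obtain ⟨b, hbW, hbs, hbl⟩ := exists_linearIndependent Ω W
  rw [hspan] at hbs
  let B0 : Module.Basis b Ω V := Module.Basis.mk hbl (by rw [Subtype.range_coe, hbs])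
  have : Finite b := Module.Finite.finite_basis B0
  have : Fintype b := Fintype.ofFinite b
  have hcard : Fintype.card b = Module.finrank Ω V := (Module.finrank_eq_card_basis B0).symm
  let B : Module.Basis (Fin (Module.finrank Ω V)) Ω V :=
    B0.reindex (Fintype.equivFinOfCardEq hcard)
  have hB : ∀ i g, ρ g (B i) = B i := by
    intro i g
    have : B i = ((Fintype.equivFinOfCardEq hcard).symm i : V) := by
      simp [B, B0]
    rw [this]
    exact hbW ((Fintype.equivFinOfCardEq hcard).symm i).2 g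
  refine ⟨B, fun g i => hB i g, fun v hv i => ?_⟩
  have hsum' : ∀ (g : Ω ≃ₐ[F] Ω) (s : Finset (Fin (Module.finrank Ω V)))
      (f : Fin (Module.finrank Ω V) → V),
      ρ g (∑ i ∈ s, f i) = ∑ i ∈ s, ρ g (f i) := by
    intro g s f
    induction s using Finset.induction_on with
    | empty => simp [hzero]
    | insert a s ha ih => rw [Finset.sum_insert ha, Finset.sum_insert ha, hadd, ih]
  have hfix : ∀ g : Ω ≃ₐ[F] Ω, g (B.repr v i) = B.repr v i := by
    intro g
    have h1 : ρ g v = ∑ j, g (B.repr v j) • B j := by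
      conv_lhs => rw [← B.sum_repr v]
      rw [hsum']
      refine Finset.sum_congr rfl fun j _ => ?_
      rw [hsmul, hB]
    have h2 : B.repr (ρ g v) i = g (B.repr v i) := by
      rw [h1, B.repr_sum_self]
    rw [← h2, hv g]
  obtain ⟨c, hc⟩ := (InfiniteGalois.mem_range_algebraMap_iff_fixed (k := F) (B.repr v i)).2 hfix
  exact ⟨c, hc.symm⟩

end BR7.H92
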