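import Pool.Agent.Lib.MP_defcf3_al.BR.StageT
import Pool.Agent.Lib.MP_defcf3_al.BR.H38.Index
import Pool.Agent.Lib.MP_defcf3_al.BR.H38.Generic
import Pool.Agent.Lib.MP_defcf3_al.BR.H6.Ker
import Pool.Agent.Lib.MP_defcf3_al.BR.H22.H90
import Pool.Agent.Lib.MP_defcf3_al.BR.H22.Kum
import Pool.Agent.Lib.MP_defcf3_al.BR.H4.Dlog
import Pool.Agent.Lib.MP_defcf3_al.BR.H50.Cls

/-!
Module SEVSYM: a class over F split by an open subgroup of index 7 becomes, up to a power prime to 7, a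
product of symbols over L.
-/

namespace BR7.H92

universe u

open BR7

section Orb

variable {G A : Type*} [Group G] [MulAction G A]

/-- The equivariant function on G/H with value b at the base point. -/
def orb (H : Subgroup G) (b : A) (hb : ∀ g ∈ H, g • b = b) : G ⧸ H → A :=
  Quotient.lift (fun g : G => g • b) (by
    intro g h hgh
    have h1 : g⁻¹ * h ∈ H := QuotientGroup.leftRel_apply.1 hgh
    have h2 := hb _ h1
    change g • b = h • b
    rw [← h2, smul_smul, mul_inv_cancel_left, h2])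

theorem orb_mk (H : Subgroup G) (b : A) (hb : ∀ g ∈ H, g • b = b) (g : G) :
    orb H b hb (QuotientGroup.mk g) = g • b := rfl

theorem orb_eqv (H : Subgroup G) (b : A) (hb : ∀ g ∈ H, g • b = b) (g : G) (x : G ⧸ H) :
    orb H b hb (g • x) = g • orb H b hb x := by
  obtain ⟨h, rfl⟩ := QuotientGroup.mk_surjective x
  change orb H b hb (QuotientGroup.mk (g * h)) = g • orb H b hb (QuotientGroup.mk h)
  rw [orb_mk, orb_mk, mul_smul]

end Orb

theorem openStab_quot {G : Type*} [Group G] [TopologicalSpace G] [IsTopologicalGroup G] (H : Subgroup G)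
    (hH : IsOpen (H : Set G)) : OpenStab G (G ⧸ H) := by
  intro x
  obtain ⟨g, rfl⟩ := QuotientGroup.mk_surjective x
  have h1 : {h : G | h • (QuotientGroup.mk g : G ⧸ H) = QuotientGroup.mk g}
      = (fun h : G => (h * g)⁻¹ * g) ⁻¹' (H : Set G) := by
    ext h
    simp only [Set.mem_ofPred_eq, Set.mem_preimage, SetLike.mem_coe]
    change (QuotientGroup.mk (h * g) : G ⧸ H) = QuotientGroup.mk g ↔ _
    rw [QuotientGroup.eq]
  rw [h1]
  exact hH.preimage (by fun_prop)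

theorem disc_sub {G A : Type*} [Group G] [TopologicalSpace G] [CommGroup A] [MulDistribMulAction G A]
    (h : Disc G A) (H : Subgroup G) : Disc H A := by
  intro a
  exact (h a).preimage continuous_subtype_val

theorem res_Z2 {G A : Type*} [Group G] [TopologicalSpace G] [CommGroup A] [MulDistribMulAction G A]
    {f : G → G → A} (hf : f ∈ Z2 G A) (H : Subgroup G) : (fun g h : H => f g h) ∈ Z2 H A := by
  refine ⟨?_, fun g h k => hf.2 g h k⟩
  exact hf.1.comp_continuous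
    (f := fun p : H × H => ((p.1 : G), (p.2 : G))) (by fun_prop)

theorem sevsym (hSyl : SylStatement.{u}) (hKS : KumSurjStatement.{u}) (hCC : CorCupStatement.{u})
    (hRT : RTStatement.{u}) (hKX : KumXStatement.{u}) : SevenSymStatement.{u} := by
  intro F Ω _ _ _ _ _ ζ hζ f hf H hHo hHi hfH
  classical
  obtain ⟨P, χ, hPo, hPc, hχ, hχl, hχH⟩ := hSyl (Ω ≃ₐ[F] Ω) H hHo hHi
  have hχ1 : χ 1 = 0 := by
    have h := hχ 1 1
    rw [one_mul] at h
    exact (left_eq_add.1 h)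
  have hχi : ∀ g, χ g⁻¹ = - χ g := by
    intro g
    have h := hχ g g⁻¹
    rw [mul_inv_cancel, hχ1] at h
    exact (neg_eq_of_add_eq_zero_right h.symm).symm
  let U : Subgroup P :=
    { carrier := {g | χ g = 0}
      mul_mem' := by
        intro g h hg hh
        have hg' : χ g = 0 := hg
        have hh' : χ h = 0 := hh
        change χ (g * h) = 0
        rw [hχ, hg', hh', add_zero]
      one_mem' := hχ1
      inv_mem' := by
        intro g hg
        have hg' : χ g = 0 := hg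
        change χ g⁻¹ = 0
        rw [hχi, hg', neg_zero] }
  have hU : ∀ g, g ∈ U ↔ χ g = 0 := fun g => Iff.rfl
  have hUo : IsOpen (U : Set P) := hχl.isOpen_fiber 0
  have hdisc : Disc (Ω ≃ₐ[F] Ω) Ωˣ := H4.disc F Ω
  have hdP : Disc P Ωˣ := disc_sub hdisc P
  have hfP : (fun g h : P => f g h) ∈ Z2 P Ωˣ := res_Z2 hf P
  have hfU : (fun g h : U => (fun g h : P => f g h) g h) ∈ B2 U Ωˣ := by
    obtain ⟨b, hb, hbe⟩ := hfH
    let i : U → H := fun g => ⟨((g : P) : Ω ≃ₐ[F] Ω), hχH g g.2⟩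
    have hi : Continuous i := by
      refine Continuous.subtype_mk ?_ _
      exact continuous_subtype_val.comp continuous_subtype_val
    refine ⟨fun g => b (i g), hb.comp_continuous hi, fun g h => ?_⟩
    exact hbe (i g) (i h)
  have hfact : Fact (Nat.Prime 7) := ⟨by norm_num⟩
  obtain ⟨a, ha, b, hb, hab⟩ := H6.ker P Ωˣ hdP 7 χ hχ hχl U hU (H22.h90 F Ω P hPo U hUo) _ hfP hfU
  -- the subgroup P2 of HZ
  set P2 : Subgroup (HZ F ζ) := P.subgroupOf (HZ F ζ) with hP2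
  have hP2o : IsOpen (P2 : Set (HZ F ζ)) := hPo.preimage continuous_subtype_val
  let inc : P2 → P := fun g => ⟨((g : HZ F ζ) : Ω ≃ₐ[F] Ω), g.2⟩
  have hinc : Continuous inc := by
    refine Continuous.subtype_mk ?_ _
    exact continuous_subtype_val.comp continuous_subtype_val
  obtain ⟨θ, hθ⟩ := hKS F Ω ζ hζ P2 hP2o (fun g => χ (inc g)) (fun g h => hχ (inc g) (inc h))
    (hχl.comp_continuous hinc)
  have hζfix : ∀ g : HZ F ζ, g • ζ = ζ := fun g => g.2
  have hζpow : ζ ^ 7 = 1 := hζ.pow_eq_one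
  have hau : ∀ g ∈ P2, g • a = a := by
    intro g hg
    exact ha (inc ⟨g, hg⟩)
  have hθ7 : ∀ g ∈ P2, g • (θ ^ 7) = θ ^ 7 := by
    intro g hg
    have h1 : g • θ = ζ ^ (χ (inc ⟨g, hg⟩)).val * θ := hθ ⟨g, hg⟩
    rw [smul_pow', h1, mul_pow, ← pow_mul, mul_comm _ 7, pow_mul, hζpow, one_pow, one_mul]
  let uu : (HZ F ζ) ⧸ P2 → Ωˣ := orb P2 a hau
  let vv : (HZ F ζ) ⧸ P2 → Ωˣ := orb P2 (θ ^ 7) hθ7
  have hue : EqvF (G := HZ F ζ) uu := fun g x => orb_eqv P2 a hau g x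
  have hve : EqvF (G := HZ F ζ) vv := fun g x => orb_eqv P2 _ hθ7 g x
  have hos : OpenStab (HZ F ζ) ((HZ F ζ) ⧸ P2) := openStab_quot P2 hP2o
  obtain ⟨k1, k2, -⟩ := hKX F Ω ζ hζ ((HZ F ζ) ⧸ P2) hos vv hve
  have hPi : P.index ≠ 0 := by
    intro h
    rw [h] at hPc
    norm_num at hPc
  have hPfi : P.FiniteIndex := ⟨hPi⟩
  have hP2fi : P2.FiniteIndex := by
    rw [hP2]; infer_instance
  have hfin : Finite ((HZ F ζ) ⧸ P2) := Subgroup.finite_quotient_of_finiteIndex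
  let hft : Fintype ((HZ F ζ) ⧸ P2) := Fintype.ofFinite _
  have hfZ : (fun g h : HZ F ζ => f g h) ∈ Z2 (HZ F ζ) Ωˣ := res_Z2 hf _
  have hdZ : Disc (HZ F ζ) Ωˣ := disc_sub hdisc _
  have hu1 : uu (QuotientGroup.mk 1) = a := by
    change (1 : HZ F ζ) • a = a
    exact one_smul _ _
  have hv1 : vv (QuotientGroup.mk 1) = θ ^ 7 := by
    change (1 : HZ F ζ) • (θ ^ 7) = θ ^ 7
    exact one_smul _ _
  have hk1 : ∀ k : P2, kumX F ζ vv (k : HZ F ζ) (QuotientGroup.mk 1) = χ (inc k) := by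
    intro k
    have hfixpt : (k : HZ F ζ) • (QuotientGroup.mk 1 : (HZ F ζ) ⧸ P2) = QuotientGroup.mk 1 := by
      change (QuotientGroup.mk ((k : HZ F ζ) * 1) : (HZ F ζ) ⧸ P2) = QuotientGroup.mk 1
      rw [QuotientGroup.eq, mul_one, mul_one]
      exact P2.inv_mem k.2
    unfold kumX
    rw [hfixpt, hv1]
    have hr : (root7 (θ ^ 7)) ^ 7 = θ ^ 7 := (H22.kum H4.dlog H4.disc F Ω ζ hζ).1 _
    have hq : (root7 (θ ^ 7) * θ⁻¹) ^ 7 = 1 := by
      rw [mul_pow, hr, inv_pow, mul_inv_cancel]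
    obtain ⟨D1, -, D3⟩ := H4.dlog Ω 7 ζ hζ
    set j := dlog 7 ζ (root7 (θ ^ 7) * θ⁻¹) with hj
    have hj1 : ζ ^ j.val = root7 (θ ^ 7) * θ⁻¹ := D1 _ hq
    have hroot : root7 (θ ^ 7) = ζ ^ j.val * θ := by
      rw [hj1, inv_mul_cancel_right]
    have hact : (k : HZ F ζ) • root7 (θ ^ 7) * (root7 (θ ^ 7))⁻¹ = ζ ^ (χ (inc k)).val := by
      have h1 : (k : HZ F ζ) • θ = ζ ^ (χ (inc k)).val * θ := hθ k
      rw [hroot, smul_mul', smul_pow', hζfix, h1]
      rw [mul_left_comm, mul_inv_rev, mul_assoc, mul_assoc (ζ ^ j.val)]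
      rw [mul_inv_cancel_left, mul_inv_cancel, mul_one]
    rw [hact, D3]
  have hmem : (fun g h : P2 => f g h * (cup 7 (uu (QuotientGroup.mk 1))
      (fun k : P2 => kumX F ζ vv k (QuotientGroup.mk 1)) g h)⁻¹) ∈ B2 P2 Ωˣ := by
    refine ⟨fun g => b (inc g), hb.comp_continuous hinc, fun g h => ?_⟩
    have h1 := hab (inc g) (inc h)
    have h2 : (fun k : P2 => kumX F ζ vv (k : HZ F ζ) (QuotientGroup.mk 1)) = fun k => χ (inc k) :=
      funext hk1
    rw [h2, hu1]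
    exact h1
  have hcc := hCC (HZ F ζ) Ωˣ hdZ P2 hP2o 7 (fun g h : HZ F ζ => f g h) hfZ uu (kumX F ζ vv) hue k1 k2
    hmem
  have hgz : gcup 7 uu (kumX F ζ vv) ∈ Z2 (HZ F ζ) Ωˣ :=
    H38.gz (HZ F ζ) Ωˣ ((HZ F ζ) ⧸ P2) hdZ hos 7 uu (kumX F ζ vv) hue k1 k2
  refine ⟨Fintype.card ((HZ F ζ) ⧸ P2), ?_, ?_⟩
  · obtain ⟨-, -, hc⟩ := H38.index F Ω ζ hζ P hPo
    have e1 : Fintype.card ((HZ F ζ) ⧸ P2) = P.relIndex (HZ F ζ) := by
      rw [← Nat.card_eq_fintype_card]; rfl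
    have e2 : (P ⊓ HZ F ζ).relIndex P * P.index = (P ⊓ HZ F ζ).index :=
      Subgroup.relIndex_mul_index inf_le_left
    have e3 : (P ⊓ HZ F ζ).relIndex (HZ F ζ) * (HZ F ζ).index = (P ⊓ HZ F ζ).index :=
      Subgroup.relIndex_mul_index inf_le_right
    rw [Subgroup.inf_relIndex_right] at e3
    rw [e1]
    have hco : Nat.Coprime (P ⊓ HZ F ζ).index 7 := by
      rw [← e2]
      exact Nat.Coprime.mul_left hc hPc
    exact Nat.Coprime.coprime_dvd_left (Dvd.intro _ e3) hco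
  · rw [← H50.cls_pow hfZ]
    have h1 : cls (HZ F ζ) Ωˣ ((fun g h : HZ F ζ => f g h) ^ Fintype.card ((HZ F ζ) ⧸ P2))
        = symX F ζ uu vv := by
      unfold symX
      exact (H50.cls_eq_iff (pow_mem hfZ _) hgz).2 hcc
    rw [h1]
    exact hRT F Ω ζ hζ ((HZ F ζ) ⧸ P2) hos uu vv hue hve

end BR7.H92
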